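import Mathlib

namespace Pool.Agent.Results.MP_6d480e_an.Inequivalent

open scoped ComplexConjugate

/-- `E` is extreme: some measure `μ = ∑_(x ∈ E) c x • δ_x` with unimodular coefficients has
`μ * μ~ = |E| δ_0`; the coefficient of `μ * μ~` at `d` is `∑_y c (y + d) * conj (c y)`. -/
def Extreme {G : Type} [AddCommGroup G] [Fintype G] [DecidableEq G] (E : Finset G) : Prop :=
  ∃ c : G → ℂ, (∀ x ∈ E, ‖c x‖ = 1) ∧ (∀ x, x ∉ E → c x = 0) ∧
    ∀ d, ∑ y, c (y + d) * conj (c y) = if d = 0 then (E.card : ℂ) else 0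

/-- A sign vector given by two bit masks. -/
def sg (P N : ℕ) (x : ZMod 127) : ℤ := if P.testBit x.val then 1 else if N.testBit x.val then -1 else 0

/-- Its support. -/
def supp (P N : ℕ) : Finset (ZMod 127) := Finset.univ.filter fun x => sg P N x ≠ 0

lemma extreme (P N : ℕ) (hc : (supp P N).card = 64)
    (h : ∀ d, ∑ y, sg P N (y + d) * sg P N y = if d = 0 then 64 else 0) : Extreme (supp P N) := by
  refine ⟨fun x => (sg P N x : ℂ), fun x hx => ?_, fun x hx => ?_, fun d => ?_⟩
  · have := (Finset.mem_filter.mp hx).2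
    unfold sg at this ⊢
    split_ifs at this ⊢ <;> simp_all
  · simpa [supp] using hx
  · have := congrArg (Int.cast : ℤ → ℂ) (h d)
    rw [hc]
    push_cast at this
    simpa using this

/-- Masks. -/
def P1 : ℕ := 144395443378137741935860105331066560641
/-- Masks. -/
def N1 : ℕ := 23967983297652233738373723793576689664
/-- Masks. -/
def P2 : ℕ := 25307595253328836530604980288239010071
/-- Masks. -/
def N2 : ℕ := 5838254879836793180944993298070110208

lemma chk : ((List.range 127).all fun a => a == 0 || (List.range 127).all fun b =>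
    (List.range 127).any fun x => (P1.testBit x || N1.testBit x) &&
      !(P2.testBit ((a * x + b) % 127) || N2.testBit ((a * x + b) % 127))) = true := by
  decide +kernel

lemma ineq (a b : ZMod 127) : a = 0 ∨ ∃ x, sg P1 N1 x ≠ 0 ∧ sg P2 N2 (a * x + b) = 0 := by
  have h := chk
  simp only [List.all_eq_true, List.any_eq_true, List.mem_range, Bool.or_eq_true, beq_iff_eq,
    Bool.and_eq_true, Bool.not_eq_true', Bool.or_eq_false_iff] at h
  rcases h a.val (ZMod.val_lt a) with h | h
  · exact Or.inl ((ZMod.val_eq_zero a).mp h)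
  · obtain ⟨x, hx, h1, h2, h3⟩ := h b.val (ZMod.val_lt b)
    have e : (x : ZMod 127).val = x := ZMod.val_cast_of_lt hx
    have e2 : (a * x + b).val = (a.val * x + b.val) % 127 := by
      rw [ZMod.val_add, ZMod.val_mul, e, Nat.mod_add_mod]
    refine Or.inr ⟨x, ?_, ?_⟩
    · unfold sg
      rw [e]
      rcases h1 with h1 | h1
      · simp [h1]
      · rw [h1]; split_ifs <;> simp_all
    · unfold sg
      rw [e2, h2, h3]; simp

theorem result : Nat.Prime 127 ∧ ∃ E F : Finset (ZMod 127), E.card = 64 ∧ F.card = 64 ∧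
    Extreme E ∧ Extreme F ∧ ∀ a b : ZMod 127, a ≠ 0 → F ≠ E.image fun x => a * x + b := by
  have c1 : (supp P1 N1).card = 64 := by decide +kernel
  have c2 : (supp P2 N2).card = 64 := by decide +kernel
  refine ⟨by norm_num, supp P1 N1, supp P2 N2, c1, c2, extreme _ _ c1 (by decide +kernel),
    extreme _ _ c2 (by decide +kernel), fun a b ha e => ?_⟩
  obtain ⟨x, h1, h2⟩ := (ineq a b).resolve_left ha
  have : a * x + b ∈ supp P2 N2 := by
    rw [e]; exact Finset.mem_image_of_mem _ (Finset.mem_filter.mpr ⟨Finset.mem_univ _, h1⟩)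
  exact (Finset.mem_filter.mp this).2 h2

end Pool.Agent.Results.MP_6d480e_an.Inequivalent
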